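import Pool.Agent.H70.EH.Targets

/-!
MUV: the two distributions (MP_0f8dca_lc).
-/

set_option autoImplicit false

namespace Pool.Agent.H30.EH

open Finset Pool.Agent.H6.NB Pool.Agent.H70.EH

theorem sum_prod (V : Type) [Fintype V] [DecidableEq V] (W : V → ℝ) :
    ∑ y : V → Bool, ∏ v, (1 + sg (y v) * W v) / 2 = 1 := by
  have h := Finset.prod_univ_sum (fun _ : V => (univ : Finset Bool))
    (fun v b => (1 + sg b * W v) / 2)
  rw [Fintype.piFinset_univ] at h
  rw [← h]
  apply Finset.prod_eq_one
  intro v _
  rw [Fintype.sum_bool]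
  simp only [sg, if_true, Bool.false_eq_true, if_false]
  ring

theorem mle_one (V : Type) [Fintype V] [DecidableEq V] (W : V → ℝ) :
    mle (fun _ : V → Bool => (1 : ℝ)) W = 1 := by
  unfold mle
  simp only [mul_one]
  exact sum_prod V W

theorem mle_zero (q : ℕ) (F : (VV q → Bool) → ℝ) :
    mle F (fun _ => 0) = ∑ p, 1 / 2 ^ (2 * 2 ^ q) * F p := by
  unfold mle
  apply Finset.sum_congr rfl
  intro y _
  congr 1
  simp only [mul_zero, add_zero]
  rw [Finset.prod_const, Finset.card_univ, div_pow, one_pow]
  congr 2
  rw [Fintype.card_prod, Fintype.card_fun, Fintype.card_bool, Fintype.card_fin]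

theorem main_sum (h0 : T_WLM) (h1 : T_WLK) (b : Bool) (q : ℕ) (F : (VV q → Bool) → ℝ) :
    ∑ p, mv b q p * F p =
    if b then (AA q (dm q))^[Tm q] (mle F) (fun _ => 0) else mle F fun _ => 0 := by
  cases b with
  | false =>
    simp only [Bool.false_eq_true, if_false]
    rw [mle_zero]
    apply Finset.sum_congr rfl
    intro p _
    simp [mv]
  | true =>
    simp only [if_true]
    have h2 := (h1 q (dm q) (h0 q).1 (h0 q).2.2.1).2.2.1 (Tm q) (VV q → Bool) F
      (fun y W => ∏ v, (1 + sg (y v) * W v) / 2) (fun _ => 0)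
    have h3 : (mle F) = fun W => ∑ y : VV q → Bool, F y * ∏ v, (1 + sg (y v) * W v) / 2 := by
      funext W
      unfold mle
      exact Finset.sum_congr rfl (fun y _ => mul_comm _ _)
    rw [h3, h2]
    apply Finset.sum_congr rfl
    intro p _
    rw [mul_comm]
    congr 1

theorem muv (h0 : T_WLM) (h1 : T_WLK) : T_MUV := by
  intro b q
  have hb := h1 q (dm q) (h0 q).1 (h0 q).2.2.1
  refine ⟨?_, ?_, main_sum h0 h1 b q⟩
  · intro p
    cases b with
    | false => simp only [mv, Bool.false_eq_true, if_false]; positivity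
    | true =>
      simp only [mv, if_true]
      have h2 := hb.2.1 (Tm q) (fun _ => 0)
        (fun W => ∏ v, (1 + sg (p v) * W v) / 2) (fun W hW => ?_) (fun _ => 0) (fun v => by simp)
      · rw [hb.2.2.2] at h2
        exact h2
      · apply Finset.prod_nonneg
        intro v _
        have h4 := abs_le.1 (hW v)
        unfold sg
        split_ifs <;> linarith [h4.1, h4.2]
  · have h2 := main_sum h0 h1 b q (fun _ => 1)
    simp only [mul_one] at h2
    rw [h2]
    cases b with
    | false =>
      simp only [Bool.false_eq_true, if_false]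
      exact mle_one _ _
    | true =>
      simp only [if_true]
      have h5 : (mle (fun _ : VV q → Bool => (1 : ℝ))) = fun _ => 1 := by
        funext W
        exact mle_one _ W
      rw [h5]
      exact hb.2.2.2 (Tm q) 1 _

end Pool.Agent.H30.EH
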