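import Pool.Agent.H70.EH.Targets

/-!
WLM: estimates for the step size (MP_0f8dca_lc).
-/

set_option autoImplicit false

namespace Pool.Agent.H30.EH

open Finset Pool.Agent.H6.NB Pool.Agent.H70.EH

theorem eps2_nonneg (q : ℕ) : 0 ≤ eps2 q := by unfold eps2; positivity

theorem eps2_le (q : ℕ) : eps2 q ≤ 1 / 24 := by
  unfold eps2
  apply one_div_le_one_div_of_le (by norm_num)
  have : (0 : ℝ) ≤ q := Nat.cast_nonneg q
  linarith

theorem Tm_eq (q : ℕ) : (Tm q : ℝ) = 2 ^ 2 ^ q := by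
  unfold Tm
  push_cast
  rfl

theorem Tm_pos (q : ℕ) : (0 : ℝ) < (Tm q : ℝ) := by
  rw [Tm_eq]
  positivity

theorem dm_nonneg (q : ℕ) : 0 ≤ dm q := Real.sqrt_nonneg _

theorem dm_sq (q : ℕ) : dm q ^ 2 = eps2 q / Tm q := by
  unfold dm
  exact Real.sq_sqrt (div_nonneg (eps2_nonneg q) (Tm_pos q).le)

theorem three_mul_le (q : ℕ) (hq : 10 ≤ q) : 3 * q ≤ 2 ^ q := by
  induction q, hq using Nat.le_induction with
  | base => norm_num
  | succ n hn ih =>
    rw [pow_succ]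
    omega

theorem five_mul_le (q : ℕ) (hq : 10 ≤ q) : 5 * q + 2 ≤ 2 ^ (q - 2) := by
  induction q, hq using Nat.le_induction with
  | base => norm_num
  | succ n hn ih =>
    have h : n + 1 - 2 = (n - 2) + 1 := by omega
    rw [h, pow_succ]
    omega

theorem wlm : T_WLM := by
  intro q
  have h0 := dm_nonneg q
  have hT := Tm_pos q
  have he0 := eps2_nonneg q
  have he1 := eps2_le q
  have hs2 : √(2 ^ q) ^ 2 = (2 : ℝ) ^ q := Real.sq_sqrt (by positivity)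
  have hs0 : 0 ≤ √((2 : ℝ) ^ q) := Real.sqrt_nonneg _
  refine ⟨h0, ?_, ?_, ?_⟩
  · rw [dm_sq]
    field_simp
  · have h1 : (dm q * √(2 ^ q)) ^ 2 ≤ (1 / 2) ^ 2 := by
      rw [mul_pow, dm_sq, hs2, Tm_eq, div_mul_eq_mul_div, div_le_iff₀ (by positivity)]
      have h2 : (2 : ℝ) ^ q ≤ 2 ^ 2 ^ q :=
        pow_le_pow_right₀ (by norm_num) Nat.lt_two_pow_self.le
      have h3 : eps2 q * 2 ^ q ≤ 1 / 24 * 2 ^ 2 ^ q :=
        mul_le_mul he1 h2 (by positivity) (by norm_num)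
      have h4 : (0 : ℝ) ≤ 2 ^ 2 ^ q := by positivity
      linarith
    exact le_of_sq_le_sq h1 (by norm_num)
  · intro hq
    have hx0 : 0 ≤ 4 * dm q * (2 ^ q * √(2 ^ q)) := by positivity
    have hx2 : (4 * dm q * (2 ^ q * √(2 ^ q))) ^ 2 = 16 * eps2 q * 2 ^ (3 * q) / 2 ^ 2 ^ q := by
      calc (4 * dm q * (2 ^ q * √(2 ^ q))) ^ 2 = 16 * dm q ^ 2 * ((2 ^ q) ^ 2 * √(2 ^ q) ^ 2) := by
            ring
        _ = 16 * (eps2 q / 2 ^ 2 ^ q) * ((2 ^ q) ^ 2 * 2 ^ q) := by rw [dm_sq, hs2, Tm_eq]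
        _ = 16 * eps2 q * 2 ^ (3 * q) / 2 ^ 2 ^ q := by
            rw [show (2 : ℝ) ^ (3 * q) = (2 ^ q) ^ 2 * 2 ^ q by
              rw [← pow_succ, ← pow_mul, mul_comm]]
            ring
    constructor
    · have h1 : (4 * dm q * (2 ^ q * √(2 ^ q))) ^ 2 ≤ 1 ^ 2 := by
        rw [hx2, div_le_iff₀ (by positivity)]
        have h2 : (2 : ℝ) ^ (3 * q) ≤ 2 ^ 2 ^ q :=
          pow_le_pow_right₀ (by norm_num) (three_mul_le q hq)
        have h3 : 16 * eps2 q * 2 ^ (3 * q) ≤ 1 * 2 ^ 2 ^ q :=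
          mul_le_mul (by linarith) h2 (by positivity) (by norm_num)
        linarith
      exact le_of_sq_le_sq h1 (by norm_num)
    · have hd : dm q ≤ 1 / 2 ^ 2 ^ (q - 1) := by
        have h1 : dm q ^ 2 ≤ (1 / 2 ^ 2 ^ (q - 1)) ^ 2 := by
          rw [dm_sq, Tm_eq, div_pow, one_pow, ← pow_mul,
            show 2 ^ (q - 1) * 2 = 2 ^ q by rw [← pow_succ]; congr 1; omega]
          exact div_le_div_of_nonneg_right (by linarith) (by positivity)
        exact le_of_sq_le_sq h1 (by positivity)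
      have hsq : √((2 : ℝ) ^ q) ≤ 2 ^ q := by
        have h1 : (1 : ℝ) ≤ 2 ^ q := one_le_pow₀ (by norm_num)
        rw [Real.sqrt_le_left (by positivity)]
        nlinarith
      have hxle : 4 * dm q * (2 ^ q * √(2 ^ q)) ≤ 4 * (1 / 2 ^ 2 ^ (q - 1)) * (2 ^ q * 2 ^ q) := by
        gcongr
      have hTx : (Tm q : ℝ) * (4 * dm q * (2 ^ q * √(2 ^ q))) ^ 2 ≤ 2 ^ (3 * q) := by
        rw [hx2, Tm_eq, mul_div_cancel₀ _ (by positivity)]
        have h2 : (0 : ℝ) ≤ 2 ^ (3 * q) := by positivity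
        nlinarith
      calc (Tm q : ℝ) * (4 * dm q * (2 ^ q * √(2 ^ q))) ^ 3
          = ((Tm q : ℝ) * (4 * dm q * (2 ^ q * √(2 ^ q))) ^ 2) *
            (4 * dm q * (2 ^ q * √(2 ^ q))) := by ring
        _ ≤ 2 ^ (3 * q) * (4 * (1 / 2 ^ 2 ^ (q - 1)) * (2 ^ q * 2 ^ q)) :=
            mul_le_mul hTx hxle hx0 (by positivity)
        _ = 2 ^ (5 * q + 2) / 2 ^ 2 ^ (q - 1) := by
            rw [show (2 : ℝ) ^ (5 * q + 2) = 2 ^ (3 * q) * (2 ^ q * 2 ^ q) * 4 by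
              rw [← pow_add, ← pow_add, pow_add _ (5 * q) 2]
              rw [show 3 * q + (q + q) = 5 * q by ring]
              norm_num]
            ring
        _ ≤ 2 ^ 2 ^ (q - 2) / 2 ^ 2 ^ (q - 1) := by
            apply div_le_div_of_nonneg_right _ (by positivity)
            exact pow_le_pow_right₀ (by norm_num) (five_mul_le q hq)
        _ = 1 / 2 ^ 2 ^ (q - 2) := by
            rw [show 2 ^ (q - 1) = 2 ^ (q - 2) + 2 ^ (q - 2) by
              rw [← two_mul, ← pow_succ']; congr 1; omega]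
            rw [pow_add]
            field_simp

end Pool.Agent.H30.EH
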