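import Pool.Agent.H70.EH.Targets

/-!
DTC: a decision tree is a circuit of depth two (MP_0f8dca_lc).
-/

set_option autoImplicit false

namespace Pool.Agent.H30.EH

open Finset Pool.Agent.H6.NB Pool.Agent.H70.EH

theorem dtc (h1 : Pool.Agent.H6.NB.T_CLB) (h2 : Pool.Agent.H6.NB.T_PTH) : T_DTC := by
  intro X S t m T O hS ht h2t hd hsh hO
  obtain ⟨Ps, hlen, hPs, hev⟩ := h2 T m hsh
  obtain ⟨_, _, _, hlist, _⟩ := h1 X S hS
  refine hlist 1 (Ps.map fun τ => (fun y => τ.any fun c => O y c.1 == !c.2, false)) _ ?_ ?_ ?_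
  · rw [List.length_map]
    exact hlen.trans ((Nat.pow_le_pow_right (by norm_num) hd).trans h2t)
  · intro c hc
    obtain ⟨τ, hτ, rfl⟩ := List.mem_map.1 hc
    refine hlist 0 (τ.map fun c => (fun y => O y c.1, !c.2)) _ ?_ ?_ ?_
    · rw [List.length_map]
      exact ((hPs τ hτ).1.trans hd).trans ht
    · intro c hc
      obtain ⟨d, _, rfl⟩ := List.mem_map.1 hc
      exact hO d.1
    · intro y
      simp only [List.any_eq_true, beq_iff_eq, List.mem_map, exists_exists_and_eq_and]
  · intro y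
    rw [hev (O y)]
    simp only [List.mem_map, exists_exists_and_eq_and, List.any_eq_false, beq_iff_eq]
    constructor
    · rintro ⟨τ, hτ, h⟩
      refine ⟨τ, hτ, fun c hc => ?_⟩
      rw [h c hc]
      cases c.2 <;> decide
    · rintro ⟨τ, hτ, h⟩
      refine ⟨τ, hτ, fun c hc => ?_⟩
      have := h c hc
      revert this
      cases O y c.1 <;> cases c.2 <;> decide

end Pool.Agent.H30.EH
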