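import Pool.Agent.H70.EH.Targets

/-!
POS: the positions of the copies (MP_0f8dca_lc).
-/

set_option autoImplicit false

namespace Pool.Agent.H30.EH.POS

open Finset Pool.Agent.H6.NB Pool.Agent.H70.EH

theorem pos_inj (h2 : Pool.Agent.H6.NB.T_COD) {s s' : List Bool}
    {u : Fin (2 * s.length) → Bool} {u' : Fin (2 * s'.length) → Bool}
    {v v' : List Bool} {b b' : Bool}
    (h : pos s (List.ofFn u) v b = pos s' (List.ofFn u') v' b') :
    s = s' ∧ HEq u u' ∧ v = v' ∧ b = b' := by
  unfold pos at h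
  obtain ⟨a, c, d⟩ := h2.1 _ _ _ _ _ _ h
  subst a
  have e := List.append_inj c (by simp)
  refine ⟨rfl, heq_of_eq (List.ofFn_injective e.1), e.2, ?_⟩
  cases b <;> cases b' <;> simp at d ⊢

theorem OP_pos (h1 : T_SLT) (h2 : Pool.Agent.H6.NB.T_COD) (V : ℕ → ATM) (M : ℕ)
    (e : Fin M → ℕ × List Bool) (he : Function.Injective e) (P : ∀ j, Bk V e j) (j : Fin M)
    (u : Fin (2 * (sl V e j).length) → Bool) (v : VV (qs (sl V e j))) :
    OP V e P (pos (sl V e j) (List.ofFn u) (List.ofFn v.2) v.1) = P j u v := by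
  unfold OP
  have hx : ∃ a : Σ j : Fin M, (Fin (2 * (sl V e j).length) → Bool) × VV (qs (sl V e j)),
      pos (sl V e j) (List.ofFn u) (List.ofFn v.2) v.1 =
        pos (sl V e a.1) (List.ofFn a.2.1) (List.ofFn a.2.2.2) a.2.2.1 := ⟨⟨j, u, v⟩, rfl⟩
  rw [dif_pos hx]
  have hs := hx.choose_spec
  revert hs
  generalize hx.choose = a
  obtain ⟨j', u', v'⟩ := a
  intro hs
  obtain ⟨h3, h4, h5, h6⟩ := pos_inj h2 hs
  have hj : j = j' := (h1 V M e he).1 h3
  subst hj
  have hu : u = u' := eq_of_heq h4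
  subst hu
  have hv : v = v' := Prod.ext h6 (List.ofFn_injective h5)
  subst hv
  rfl

theorem posx (h1 : T_SLT) (h2 : Pool.Agent.H6.NB.T_COD) : T_POS := by
  intro V M e he
  refine ⟨?_, ?_⟩
  · intro P j u
    funext v
    exact OP_pos h1 h2 V M e he P j u v
  · intro P j u w
    by_cases hw : ∃ a : Σ j : Fin M, (Fin (2 * (sl V e j).length) → Bool) × VV (qs (sl V e j)),
        w = pos (sl V e a.1) (List.ofFn a.2.1) (List.ofFn a.2.2.2) a.2.2.1
    · obtain ⟨⟨j', u', v'⟩, rfl⟩ := hw
      by_cases hj : j' = j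
      · subst hj
        by_cases hu : u' = u
        · subst hu
          right
          refine ⟨v', fun p => ?_⟩
          rw [OP_pos h1 h2 V M e he, Function.update_self, Function.update_self]
        · left
          refine ⟨P j' u' v', fun p => ?_⟩
          rw [OP_pos h1 h2 V M e he, Function.update_self, Function.update_of_ne hu]
      · left
        refine ⟨P j' u' v', fun p => ?_⟩
        rw [OP_pos h1 h2 V M e he, Function.update_of_ne hj]
    · left
      refine ⟨false, fun p => ?_⟩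
      unfold OP
      rw [dif_neg hw]

end Pool.Agent.H30.EH.POS
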