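import Pool.Agent.H70.EH.Targets

/-!
RDI: formulas do not distinguish the two distributions, relative version (MP_0f8dca_lc).
-/

set_option autoImplicit false

namespace Pool.Agent.H30.EH.RDI

open Finset Pool.Agent.H6.NB Pool.Agent.H70.EH

theorem card_r (q : ℕ) : (Fintype.card ((Fin q → Bool) → Bool) : ℝ) = 2 ^ 2 ^ q := by
  rw [Fintype.card_fun, Fintype.card_fun, Fintype.card_bool, Fintype.card_fin]
  push_cast
  rfl

theorem AA_of_le (q : ℕ) (δ : ℝ) (G : (VV q → ℝ) → ℝ) (W : VV q → ℝ) (hW : ∀ v, |W v| ≤ 1 / 2) :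
    AA q δ G W = (∑ r : (Fin q → Bool) → Bool, G (fun v => W v + δ * dir q r v)) / 2 ^ 2 ^ q := by
  have h : ∀ r : (Fin q → Bool) → Bool, stp q δ W r = fun v => W v + δ * dir q r v := by
    intro r
    unfold stp
    rw [if_pos hW]
  unfold AA
  simp only [h]

theorem AA_of_not (q : ℕ) (δ : ℝ) (G : (VV q → ℝ) → ℝ) (W : VV q → ℝ)
    (hW : ¬ ∀ v, |W v| ≤ 1 / 2) : AA q δ G W = G W := by
  have h : ∀ r : (Fin q → Bool) → Bool, stp q δ W r = W := by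
    intro r
    unfold stp
    rw [if_neg hW]
  unfold AA
  simp only [h]
  rw [Finset.sum_const, Finset.card_univ, nsmul_eq_mul, card_r]
  field_simp

theorem iter_affine (h2 : T_WLK) (q : ℕ) (δ : ℝ) (hδ : 0 ≤ δ) (hδ2 : δ * √(2 ^ q) ≤ 1 / 2)
    (n : ℕ) (G : (VV q → ℝ) → ℝ) (a c : ℝ) (W : VV q → ℝ) :
    (AA q δ)^[n] (fun W => a * G W + c) W = a * (AA q δ)^[n] G W + c := by
  have h := h2 q δ hδ hδ2
  have h3 := h.2.2.1 n Bool (fun b => if b then a else 1) (fun b => if b then G else fun _ => c) W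
  have e : (fun W : VV q → ℝ => a * G W + c) = fun W => ∑ b : Bool, (if b then a else 1) *
      (if b then G else fun _ => c) W := by
    funext W
    rw [Fintype.sum_bool]
    simp
  rw [e, h3, Fintype.sum_bool]
  simp only [if_true, Bool.false_eq_true, if_false, one_mul]
  rw [h.2.2.2 n c W]

theorem mle_nonneg (V : Type) [Fintype V] [DecidableEq V] (F : (V → Bool) → ℝ) (W : V → ℝ)
    (hF : ∀ y, 0 ≤ F y) (hW : ∀ v, |W v| ≤ 1) : 0 ≤ mle F W := by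
  unfold mle
  apply Finset.sum_nonneg
  intro y _
  apply mul_nonneg _ (hF y)
  apply Finset.prod_nonneg
  intro v _
  have h4 := abs_le.1 (hW v)
  unfold sg
  split_ifs <;> linarith [h4.1, h4.2]

theorem iter_lower (h2 : T_WLK) (q : ℕ) (δ : ℝ) (hδ : 0 ≤ δ) (hδ2 : δ * √(2 ^ q) ≤ 1 / 2)
    (G : (VV q → ℝ) → ℝ) (a b : ℝ) (ha0 : 0 ≤ a) (ha1 : a ≤ 1) (hb : 0 ≤ b)
    (hG : ∀ W, (∀ v, |W v| ≤ 1) → (1 - a) * G W - b ≤ AA q δ G W) (n : ℕ) :
    ∀ W, (∀ v, |W v| ≤ 1) → (1 - a) ^ n * G W - n * b ≤ (AA q δ)^[n] G W := by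
  have h := h2 q δ hδ hδ2
  induction n with
  | zero => intro W _; simp
  | succ n ih =>
    intro W hW
    rw [Function.iterate_succ_apply]
    have h3 := h.2.1 n (fun W => (1 - a) * G W + -b) (AA q δ G) (fun W hW => by
      have := hG W hW
      linarith) W hW
    rw [iter_affine h2 q δ hδ hδ2] at h3
    have h4 : (1 - a) * ((1 - a) ^ n * G W - n * b) ≤ (1 - a) * (AA q δ)^[n] G W :=
      mul_le_mul_of_nonneg_left (ih W hW) (by linarith)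
    have h5 : (1 - a) * ((n : ℝ) * b) ≤ n * b := by
      have : 0 ≤ (n : ℝ) * b := mul_nonneg (Nat.cast_nonneg n) hb
      nlinarith
    have h6 : (1 - a) ^ (n + 1) * G W = (1 - a) * ((1 - a) ^ n * G W) := by
      rw [pow_succ]; ring
    rw [h6]
    push_cast
    nlinarith

theorem rdi (h1 : T_STR) (h2 : T_WLM) (h3 : T_MUV) (h4 : Pool.Agent.H6.NB.T_WLK) : T_RDI := by
  intro q F Λ τ hq hΛ0 hΛs hτ hL hF
  obtain ⟨hd0, hTd, hds, hw⟩ := h2 q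
  obtain ⟨hx1, hTx⟩ := hw hq
  have hs0 : 0 < √((2 : ℝ) ^ q) := Real.sqrt_pos.2 (by positivity)
  have hs1 : 1 ≤ √((2 : ℝ) ^ q) := by
    rw [Real.one_le_sqrt]
    exact one_le_pow₀ (by norm_num)
  have he : eps2 q ≤ 1 / 24 := by
    unfold eps2
    apply one_div_le_one_div_of_le (by norm_num)
    have : (0 : ℝ) ≤ q := Nat.cast_nonneg q
    linarith
  have he0 : 0 ≤ eps2 q := by unfold eps2; positivity
  have hT1 : (1 : ℝ) ≤ Tm q := by
    have : 1 ≤ Tm q := by unfold Tm; exact Nat.one_le_two_pow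
    exact_mod_cast this
  have hd2 : dm q ^ 2 ≤ 1 / 24 := by
    have h5 : (1 : ℝ) * dm q ^ 2 ≤ Tm q * dm q ^ 2 := mul_le_mul_of_nonneg_right hT1 (sq_nonneg _)
    linarith
  have hF1 : ∀ y, |F y| ≤ 1 := fun y => abs_le.2 ⟨by linarith [(hF y).1], (hF y).2⟩
  have hx0 : 0 ≤ 4 * dm q * (2 ^ q * √(2 ^ q)) := by positivity
  have hr0 : 0 ≤ Λ / √(2 ^ q) := div_nonneg hΛ0 hs0.le
  have hr1 : Λ / √(2 ^ q) ≤ 1 := (div_le_one hs0).2 hΛs
  have hra : 4 * dm q ^ 2 * Λ / √(2 ^ q) = 4 * dm q ^ 2 * (Λ / √(2 ^ q)) := by ring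
  have ha0 : 0 ≤ 4 * dm q ^ 2 * Λ / √(2 ^ q) := by positivity
  have ha1 : 4 * dm q ^ 2 * Λ / √(2 ^ q) ≤ 1 := by
    rw [hra]
    nlinarith [sq_nonneg (dm q)]
  have hb0 : 0 ≤ 4 * dm q ^ 2 * τ / √(2 ^ q) + (4 * dm q * (2 ^ q * √(2 ^ q))) ^ 3 := by positivity
  have hstep : ∀ W : VV q → ℝ, (∀ v, |W v| ≤ 1) →
      (1 - 4 * dm q ^ 2 * Λ / √(2 ^ q)) * mle F W -
        (4 * dm q ^ 2 * τ / √(2 ^ q) + (4 * dm q * (2 ^ q * √(2 ^ q))) ^ 3) ≤
      AA q (dm q) (mle F) W := by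
    intro W hW
    by_cases hW2 : ∀ v, |W v| ≤ 1 / 2
    · rw [AA_of_le q (dm q) (mle F) W hW2]
      have h5 := h1 q F Λ τ (dm q) W hL hF1 hW2 hd0 hx1
      linarith
    · rw [AA_of_not q (dm q) (mle F) W hW2]
      have h5 := mle_nonneg (VV q) F W (fun y => (hF y).1) hW
      nlinarith
  have hit := iter_lower h4 q (dm q) hd0 hds (mle F) _ _ ha0 ha1 hb0 hstep (Tm q) (fun _ => 0)
    (fun v => by simp)
  have e1 := (h3 true q).2.2 F
  have e2 := (h3 false q).2.2 F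
  simp only [if_true, Bool.false_eq_true, if_false] at e1 e2
  rw [e1, e2]
  have hm0 : 0 ≤ mle F (fun _ : VV q => (0 : ℝ)) :=
    mle_nonneg (VV q) F _ (fun y => (hF y).1) (fun v => by simp)
  have hber := one_add_mul_le_pow (R := ℝ) (a := -(4 * dm q ^ 2 * Λ / √(2 ^ q)))
    (by linarith) (Tm q)
  rw [← sub_eq_add_neg] at hber
  have hna : (Tm q : ℝ) * (4 * dm q ^ 2 * Λ / √(2 ^ q)) ≤ Λ / √(2 ^ q) := by
    have h5 : (Tm q : ℝ) * (4 * dm q ^ 2 * Λ / √(2 ^ q)) = 4 * (Tm q * dm q ^ 2) * (Λ / √(2 ^ q)) := by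
      ring
    rw [h5, hTd]
    nlinarith
  have hnb : (Tm q : ℝ) * (4 * dm q ^ 2 * τ / √(2 ^ q) + (4 * dm q * (2 ^ q * √(2 ^ q))) ^ 3) ≤
      τ + 1 / 2 ^ 2 ^ (q - 2) := by
    have h5 : (Tm q : ℝ) * (4 * dm q ^ 2 * τ / √(2 ^ q)) = 4 * (Tm q * dm q ^ 2) * (τ / √(2 ^ q)) := by
      ring
    have h6 : τ / √(2 ^ q) ≤ τ := div_le_self hτ hs1
    have h7 : 0 ≤ τ / √(2 ^ q) := div_nonneg hτ hs0.le
    rw [mul_add, h5, hTd]
    nlinarith
  have h8 : (1 - Λ / √(2 ^ q)) * mle F (fun _ : VV q => (0 : ℝ)) ≤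
      (1 - 4 * dm q ^ 2 * Λ / √(2 ^ q)) ^ Tm q * mle F (fun _ : VV q => (0 : ℝ)) := by
    apply mul_le_mul_of_nonneg_right _ hm0
    linarith
  linarith

end Pool.Agent.H30.EH.RDI
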